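import Pool.Agent.Lib.MP_99c1f3_lc.CG.Q.Defs

/-!
# CG3, block Q2: all ordinals below `κ` are made countable
-/

set_option autoImplicit false

namespace Pool.Agent.CG3

open Pool.Agent.Lib.SymModel Set

/-- Adding a triple to the collapse.

PROOF. `p.t` with `v` replaced by `insert (α, n, β) v`; skeleton, `A`, `a`, `u` unchanged; the
order: `SLe.refl`, `tt` holds because a common point of `u x`, `u x'` is in `Δ`. `f` unchanged,
`WLe.refl`. -/
theorem exists_add_v {I : Type 1} (p : PC I) {α β : K0} (hβ : β < α) {n : ℕ}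
    (hn : ∀ q ∈ p.t.y.v, q.1 = α → q.2.1 ≠ n) :
    ∃ r ≤ p, (α, n, β) ∈ r.t.y.v := by
  have hover : Over p.t.s ⟨p.t.y.A, p.t.y.a, p.t.y.u, insert (α, n, β) p.t.y.v⟩ :=
    { Afin := p.t.hy.Afin
      AS := p.t.hy.AS
      afin := p.t.hy.afin
      aX := p.t.hy.aX
      dis := p.t.hy.dis
      u := p.t.hy.u
      u0 := p.t.hy.u0
      dec := p.t.hy.dec
      v := by
        refine ⟨p.t.hy.v.fin.insert _, ?_, ?_⟩
        · rintro q (rfl | hq)
          · exact hβ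
          · exact p.t.hy.v.lt q hq
        · rintro q (rfl | hq) r (rfl | hr) h1 h2
          · rfl
          · exact absurd h2.symm (hn r hr h1.symm)
          · exact absurd h2 (hn q hq h1)
          · exact p.t.hy.v.uni q hq r hr h1 h2 }
  refine ⟨⟨⟨p.t.s, _, p.t.hs, hover⟩, p.f⟩, ⟨⟨SLe.refl _, ?_⟩, WLe.refl _ _⟩, Or.inl rfl⟩
  exact
    { A := subset_rfl
      a := subset_rfl
      u := fun _ _ => ULe.refl _
      v := subset_insert _ _
      act := fun _ hx h => absurd hx h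
      tt := fun x hx _ _ _ _ h1 _ h3 => absurd (Or.inl ⟨x, hx, h1⟩) h3 }

/-- PROOF. `F n β = RO.mkOf {p | (α, n, β) ∈ p.t.y.v}` (downward closed: `YLe.v`). `FnlB`: from
`r ∈ F n β`, `r ∈ F n β'` get `r' ≤ r` with `(α, n, β) ∈ v` and `r'' ≤ r'` with `(α, n, β') ∈ v`,
then
`IsColl.uni`. Onto: given `q`, `β < α` choose `n` which does not occur in the finite set
`q.t.y.v` and use `exists_add_v`. -/
theorem col0_PC (I : Type 1) (α : K0) : OntoB (PC I) ℕ (Set.Iio α) := by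
  have hdown : ∀ (n : ℕ) (β : K0), ∀ p ∈ {p : PC I | (α, n, β) ∈ p.t.y.v}, ∀ q ≤ p,
      q ∈ {p : PC I | (α, n, β) ∈ p.t.y.v} := fun n β p hp q hq => hq.1.2.v hp
  refine ⟨fun n β => RO.mkOf _ (hdown n β.1), fun q n b b' r _ h1 h2 => ?_, fun q b => ?_⟩
  · obtain ⟨r', hr', h3⟩ := h1 r le_rfl
    obtain ⟨r'', hr'', h4⟩ := h2 r' hr'
    have h5 : (α, n, b.1) ∈ r''.t.y.v := hr''.1.2.v h3
    have h6 := r''.t.hy.v.uni _ h5 _ h4 rfl rfl
    exact Subtype.ext (congrArg (fun x : K0 × ℕ × K0 => x.2.2) h6)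
  · obtain ⟨n, hn⟩ := (q.t.hy.v.fin.image fun x : K0 × ℕ × K0 => x.2.1).exists_notMem
    obtain ⟨r, hr, h⟩ := exists_add_v q (β := b.1) b.2 (n := n)
      fun x hx _ h => hn ⟨x, hx, h⟩
    exact ⟨r, hr, n, fun r' hr' => ⟨r', le_rfl, hdown n b.1 r h r' hr'⟩⟩

end Pool.Agent.CG3
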