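import Pool.Agent.Lib.MP_99c1f3_lc.CG.Q.Bump
import Pool.Agent.Lib.MP_99c1f3_lc.CG.H.Rho

/-!
# CG3, block Q2: all ordinals below `ρ 0` are collapsed to `κ⁺`
-/

set_option autoImplicit false

namespace Pool.Agent.CG3

open Pool.Agent.Lib.SymModel Set

/-- PROOF. `#(Iio r) < rho 0 = succ (2^κ)`, so there is an injection `ψ : Iio r → Set K0`
(`#(Set K0) = 2^κ`). `F d b = RO.mkOf {p | d ≤ p.f.1.eta ∧ p.f.1.h d = ψ b}` (downward closed by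
`Ext.eta`, `Ext.h`). `FnlB`: from `r ∈ F d b`, `r ∈ F d b'` get `r' ≤ r` with `h d = ψ b` and
`r'' ≤ r'` with `h d = ψ b'`; `Ext.h` gives `ψ b = ψ b'`. Onto: given `q`, `b` let `η > q.f.1.eta`
(`L_noMax`), `bump` with `A = q.f.1.A`, `Y = ∅`, `H = ψ b` gives `g ≤ q.f`; `r = (q.t, g)` (`WLe.of_le`),
`d = η`. -/
theorem col2_PC (I : Type 1) (r : R 0) : OntoB (PC I) L (Set.Iio r) := by
  obtain ⟨ψ⟩ : Nonempty (Set.Iio r ↪ Set K0) := by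
    refine (Cardinal.le_def _ _).1 ?_
    have h1 : Cardinal.mk (Set.Iio r) < Order.succ (2 ^ kap) := mk_Iio_R r
    rw [Cardinal.mk_set]
    exact Order.lt_succ_iff.1 h1
  have hdown : ∀ (d : L) (b : Set.Iio r), ∀ p ∈ {p : PC I | d ≤ p.f.1.eta ∧ p.f.1.h d = ψ b},
      ∀ q ≤ p, q ∈ {p : PC I | d ≤ p.f.1.eta ∧ p.f.1.h d = ψ b} := by
    rintro d b p ⟨h1, h2⟩ q hq
    exact ⟨h1.trans hq.2.1.eta, (hq.2.1.h d h1).trans h2⟩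
  refine ⟨fun d b => RO.mkOf {p | d ≤ p.f.1.eta ∧ p.f.1.h d = ψ b} (hdown d b), ?_, ?_⟩
  · intro q a b b' s _ h1 h2
    obtain ⟨s', hs', h3, h4⟩ := h1 s le_rfl
    obtain ⟨s'', hs'', h5, h6⟩ := h2 s' hs'
    have h7 := (hs''.2.1.h a h3).symm.trans h6
    exact ψ.injective (h4.symm.trans h7)
  · intro q b
    obtain ⟨η, hη⟩ := L_noMax q.f.1.eta
    obtain ⟨g, hg, h1, -, h3, -, -⟩ := bump q.f hη subset_rfl q.f.2.szA
      (Set.empty_subset q.f.1.A) (ψ b)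
    refine ⟨⟨q.t, g⟩, ⟨le_rfl, WLe.of_le hg⟩, η, fun q' hq' => ⟨q', le_rfl, ?_⟩⟩
    exact hdown η b _ ⟨h1.ge, h3⟩ q' hq'

end Pool.Agent.CG3
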