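import Pool.Agent.Lib.MP_99c1f3_lc.CG.Q2.Clos

/-!
# CG3, block Q2: the chain condition from homogeneity
-/

set_option autoImplicit false

namespace Pool.Agent.CG3

open Set

/-- Moving a set of size `≤ κ` by a permutation which fixes a part of it.

PROOF. There is an injection `s \ r → N'` (`#(s \ r) ≤ κ = #N'`), together with the identity on
`s ∩ r` it is an injection `s → I` (`N'` is disjoint from `r`). It extends to a permutation `τ` of
`I` which... Do it for the set `s ∪ r` (identity on `r`), of size `≤ κ < #I`: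
`Cardinal.extend_function_of_lt`. -/
theorem exists_move {I : Type 1} (hI : kap < Cardinal.mk I) (s r N' : Set I)
    (hs : Cardinal.mk s ≤ kap) (hr : Cardinal.mk r ≤ kap) (hN : kap ≤ Cardinal.mk N')
    (hd : Disjoint r N') : ∃ τ : Equiv.Perm I, (∀ x ∈ r, τ x = x) ∧ ∀ x ∈ s, τ x ∈ r ∪ N' := by
  classical
  have h1 : Cardinal.mk (s \ r : Set I) ≤ Cardinal.mk N' :=
    ((Cardinal.mk_le_mk_of_subset sdiff_subset).trans hs).trans hN
  obtain ⟨e⟩ : Nonempty ((s \ r : Set I) ↪ N') := h1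
  let g : (s ∪ r : Set I) → I := fun x =>
    if h : (x : I) ∈ r then x else e ⟨x, ⟨x.2.resolve_right h, h⟩⟩
  have hgr : ∀ x : (s ∪ r : Set I), (x : I) ∈ r → g x = x := fun x h => by
    simp only [g, dif_pos h]
  have hgn : ∀ x : (s ∪ r : Set I), (x : I) ∉ r → g x ∈ N' := fun x h => by
    simp only [g, dif_neg h]
    exact (e _).2
  have hdj : ∀ x, x ∈ r → x ∈ N' → False := fun x hx hx' => Set.disjoint_left.1 hd hx hx'
  have hinj : Function.Injective g := by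
    intro x y hxy
    by_cases hx : (x : I) ∈ r
    · by_cases hy : (y : I) ∈ r
      · rw [hgr x hx, hgr y hy] at hxy
        exact Subtype.ext hxy
      · exfalso
        have := hgn y hy
        rw [← hxy, hgr x hx] at this
        exact hdj _ hx this
    · by_cases hy : (y : I) ∈ r
      · exfalso
        have := hgn x hx
        rw [hxy, hgr y hy] at this
        exact hdj _ hy this
      · have h2 : (e ⟨x, ⟨x.2.resolve_right hx, hx⟩⟩ : I) = e ⟨y, ⟨y.2.resolve_right hy, hy⟩⟩ := by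
          simpa only [g, dif_neg hx, dif_neg hy] using hxy
        have h3 := e.injective (Subtype.ext h2)
        have h4 : (x : I) = y := congrArg (fun z : (s \ r : Set I) => (z : I)) h3
        exact Subtype.ext h4
  have hsz : Cardinal.mk (s ∪ r : Set I) < Cardinal.mk I := by
    refine lt_of_le_of_lt (Cardinal.mk_union_le s r) ?_
    exact lt_of_le_of_lt (Cardinal.add_le_of_le aleph0_le_kap hs hr) hI
  obtain ⟨τ, hτ⟩ := Cardinal.extend_function_of_lt (⟨g, hinj⟩ : (s ∪ r : Set I) ↪ I) hsz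
    ⟨Equiv.refl I⟩
  refine ⟨τ, fun x hx => ?_, fun x hx => ?_⟩
  · have := hτ ⟨x, Or.inr hx⟩
    exact this.trans (hgr ⟨x, Or.inr hx⟩ hx)
  · have h5 := hτ ⟨x, Or.inl hx⟩
    have h6 : τ x = g ⟨x, Or.inl hx⟩ := h5
    rw [h6]
    by_cases h : x ∈ r
    · left
      rw [hgr ⟨x, Or.inl hx⟩ h]
      exact h
    · right
      exact hgn ⟨x, Or.inl hx⟩ h

/-- A set of size `κ` outside a small set. -/
private theorem Cc_exists_out {I : Type 1} (hI : kap < Cardinal.mk I) (r : Set I)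
    (hr : Cardinal.mk r ≤ kap) : ∃ N' : Set I, Cardinal.mk N' = kap ∧ Disjoint r N' := by
  have hinf : Infinite I := Cardinal.infinite_iff.2 (aleph0_le_kap.trans hI.le)
  have h1 : Cardinal.mk (rᶜ : Set I) = Cardinal.mk I :=
    Cardinal.mk_compl_of_infinite r (hr.trans_lt hI)
  have h2 : kap ≤ Cardinal.mk (rᶜ : Set I) := h1 ▸ hI.le
  obtain ⟨p, hp, hp'⟩ := Cardinal.le_mk_iff_exists_subset.1 h2
  exact ⟨p, hp', Set.disjoint_left.2 fun x hx hxp => hp hxp hx⟩

/-- The chain condition from homogeneity.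

PROOF. For `r` with `#r ≤ κ` choose `N' r ⊆ rᶜ` with `#(N' r) = κ` (`#rᶜ = #I > κ`;
`Cardinal.le_mk_iff_exists_subset`). Let `Γ r` be the set of the chosen indices `α(r, q)`, for all
`q` with `supp q ⊆ r ∪ N' r` for which there are `α` and `τ` fixing `r` pointwise with
`act τ (f α) = q`; `#(Γ r) ≤ 2^κ` by `cnt`; `Γ r = ∅` if not `#r ≤ κ`. `exists_closed` with
`B α = supp (f α)` gives `M`. As `#M ≤ 2^κ < #(R 0)` there is `α ∉ M`. Let
`r = {x ∈ supp (f α) | ∃ a ∈ M, x ∈ supp (f a)}`, `τ` from `exists_move` for `s = supp (f α)`, and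
`q = act τ (f α)`, `supp q = τ '' supp (f α) ⊆ r ∪ N' r`. So there is `α' ∈ Γ r ⊆ M` and `τ'`
fixing `r` pointwise with `act τ' (f α') = q`. `σ = τ'⁻¹ * τ`:
`act σ (f α) = act τ'⁻¹ q = act 1 (f α') = f α'`.
`α ≠ α'`. For `x ∈ supp (f α) ∩ supp (f α')` we have `x ∈ r`, so `σ x = x`. Use `am`. -/
theorem cc_of_perm {I P : Type 1} [Preorder P] (supp : P → Set I)
    (act : Equiv.Perm I → P → P) (hI : kap < Cardinal.mk I)
    (h1 : ∀ p, Cardinal.mk (supp p) ≤ kap)
    (h2 : ∀ σ p, supp (act σ p) = σ '' supp p)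
    (h3 : ∀ σ τ p, act τ (act σ p) = act (τ * σ) p)
    (h4 : ∀ σ p, (∀ x ∈ supp p, σ x = x) → act σ p = p)
    (am : ∀ σ p, (∀ x ∈ supp p, x ∈ supp (act σ p) → σ x = x) → ∃ r, r ≤ p ∧ r ≤ act σ p)
    (cnt : ∀ N : Set I, Cardinal.mk N ≤ kap → Cardinal.mk {p | supp p ⊆ N} ≤ 2 ^ kap)
    (f : R 0 → P) : ∃ a b, a ≠ b ∧ ∃ r, r ≤ f a ∧ r ≤ f b := by
  classical
  have hex : ∀ r : Set I, ∃ N' : Set I, Cardinal.mk r ≤ kap →
      Cardinal.mk N' = kap ∧ Disjoint r N' := by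
    intro r
    by_cases hr : Cardinal.mk r ≤ kap
    · obtain ⟨N', h⟩ := Cc_exists_out hI r hr
      exact ⟨N', fun _ => h⟩
    · exact ⟨∅, fun h => absurd h hr⟩
  choose N' hN' using hex
  let S : Set I → Set P := fun r => {q | Cardinal.mk r ≤ kap ∧ supp q ⊆ r ∪ N' r ∧
    ∃ (α : R 0) (τ : Equiv.Perm I), (∀ x ∈ r, τ x = x) ∧ act τ (f α) = q}
  let c : ∀ r, S r → R 0 := fun r q => q.2.2.2.choose
  let Γ : Set I → Set (R 0) := fun r => range (c r)
  have hΓ : ∀ r, Cardinal.mk (Γ r) ≤ 2 ^ kap := by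
    intro r
    refine le_trans Cardinal.mk_range_le ?_
    by_cases hr : Cardinal.mk r ≤ kap
    · refine le_trans (Cardinal.mk_le_mk_of_subset (t := {p | supp p ⊆ r ∪ N' r}) ?_)
        (cnt (r ∪ N' r) ?_)
      · intro q hq
        exact hq.2.1
      · refine (Cardinal.mk_union_le _ _).trans ?_
        exact Cardinal.add_le_of_le aleph0_le_kap hr (hN' r hr).1.le
    · have : S r = ∅ := by
        ext q
        simp only [S, mem_ofPred_eq, mem_empty_iff_false, iff_false]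
        intro h
        exact hr h.1
      rw [this]
      simp
  obtain ⟨M, hM, hcl⟩ : ∃ M : Set (R 0), Cardinal.mk M ≤ 2 ^ kap ∧
      ∀ r : Set I, Cardinal.mk r ≤ kap → (∀ x ∈ r, ∃ a ∈ M, x ∈ supp (f a)) → Γ r ⊆ M := by
    first
      | exact exists_closedL (fun a => supp (f a)) (fun a => h1 _) Γ hΓ
      | exact exists_closed (fun a => supp (f a)) (fun a => h1 _) Γ hΓ
  obtain ⟨α, hα⟩ : ∃ α : R 0, α ∉ M := by
    by_contra hcon
    push Not at hcon
    have h5 : M = univ := eq_univ_of_forall hcon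
    rw [h5, Cardinal.mk_univ, mk_R 0] at hM
    exact absurd hM (not_le.2 (Order.lt_succ _))
  let r : Set I := {x | x ∈ supp (f α) ∧ ∃ a ∈ M, x ∈ supp (f a)}
  have hr : Cardinal.mk r ≤ kap :=
    (Cardinal.mk_le_mk_of_subset (fun x hx => hx.1 : r ⊆ supp (f α))).trans (h1 _)
  have hrM : Γ r ⊆ M := hcl r hr fun x hx => hx.2
  obtain ⟨hNc, hNd⟩ := hN' r hr
  obtain ⟨τ, hτr, hτs⟩ := exists_move hI (supp (f α)) r (N' r) (h1 _) hr hNc.ge hNd
  have hq : act τ (f α) ∈ S r := by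
    refine ⟨hr, ?_, α, τ, hτr, rfl⟩
    rw [h2]
    rintro _ ⟨x, hx, rfl⟩
    exact hτs x hx
  have hα' : c r ⟨_, hq⟩ ∈ M := hrM ⟨⟨_, hq⟩, rfl⟩
  obtain ⟨τ', hτ'r, hτ'⟩ : ∃ τ' : Equiv.Perm I, (∀ x ∈ r, τ' x = x) ∧
      act τ' (f (c r ⟨_, hq⟩)) = act τ (f α) := hq.2.2.choose_spec
  generalize c r ⟨_, hq⟩ = α' at hα' hτ'
  have hne : α ≠ α' := fun h => hα (h ▸ hα')
  have hact : act (τ'⁻¹ * τ) (f α) = f α' := by
    rw [← h3, ← hτ', h3, inv_mul_cancel]
    exact h4 1 _ fun x _ => rfl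
  have ham := am (τ'⁻¹ * τ) (f α) ?_
  · rw [hact] at ham
    exact ⟨α, α', hne, ham⟩
  · intro x hx hx'
    rw [hact] at hx'
    have hxr : x ∈ r := ⟨hx, α', hα', hx'⟩
    rw [Equiv.Perm.mul_apply, hτr x hxr, Equiv.Perm.inv_eq_iff_eq, hτ'r x hxr]

end Pool.Agent.CG3
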