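import Pool.Agent.Lib.MP_99c1f3_lc.CG.Q.Defs
import Pool.Agent.Lib.MP_99c1f3_lc.CG.H.Rho

/-!
# CG3, block Q2: the number of conditions of the second step
-/

set_option autoImplicit false

namespace Pool.Agent.CG3

open Pool.Agent.Lib.SymModel Set

/-- PROOF. `UC` is a subtype of the finite subsets of `K0 × K0`; `#(K0 × K0) = κ` is infinite and an
infinite set has as many finite subsets as elements (`Cardinal.mk_finset_of_infinite`). -/
theorem mk_UC : Cardinal.mk UC ≤ kap := by
  classical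
  have : Infinite K0 := Cardinal.infinite_iff.2 aleph0_le_kap
  have h1 : Function.Injective (fun u : UC => u.2.fin.toFinset) := by
    intro u v h
    have h2 : (u.2.fin.toFinset : Set (K0 × K0)) = v.2.fin.toFinset := congrArg _ h
    rw [Finite.coe_toFinset, Finite.coe_toFinset] at h2
    exact Subtype.ext h2
  refine (Cardinal.mk_le_of_injective h1).trans (le_of_eq ?_)
  rw [Cardinal.mk_finset_of_infinite]
  change Cardinal.mk K0 * Cardinal.mk K0 = kap
  exact Cardinal.mul_eq_self aleph0_le_kap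

/-- PROOF. `RO.carrier` is injective into `Set UC`. -/
theorem mk_RO_UC : Cardinal.mk (RO UC) ≤ 2 ^ kap := by
  have h1 : Function.Injective (fun U : RO UC => U.carrier) := fun U V h => RO.ext h
  refine (Cardinal.mk_le_of_injective h1).trans ?_
  rw [Cardinal.mk_set]
  exact Cardinal.power_le_power_left two_ne_zero mk_UC

private theorem CntQ_pow {ι α : Type 1} (hi : Cardinal.mk ι ≤ kap)
    (ha : Cardinal.mk α ≤ 2 ^ kap) : Cardinal.mk (ι → α) ≤ 2 ^ kap := by
  have h1 : Cardinal.mk (ι → α) = Cardinal.mk α ^ Cardinal.mk ι := rfl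
  have h2 : (2 : Cardinal.{1}) ^ kap ≠ 0 := (Cardinal.power_pos _ two_pos).ne'
  rw [h1]
  refine (Cardinal.power_le_power_right ha).trans ((Cardinal.power_le_power_left h2 hi).trans ?_)
  rw [← Cardinal.power_mul, Cardinal.mul_eq_self aleph0_le_kap]

private theorem CntQ_prod {α β : Type 1} (ha : Cardinal.mk α ≤ 2 ^ kap)
    (hb : Cardinal.mk β ≤ 2 ^ kap) : Cardinal.mk (α × β) ≤ 2 ^ kap := by
  have h1 : Cardinal.mk (α × β) = Cardinal.mk α * Cardinal.mk β := rfl
  rw [h1]
  refine (mul_le_mul' ha hb).trans (le_of_eq (Cardinal.mul_eq_self ?_))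
  exact aleph0_le_kap.trans (Cardinal.cantor _).le

private theorem CntQ_L : Cardinal.mk L ≤ 2 ^ kap := by
  rw [Cardinal.mk_ord_toType]
  exact Order.succ_le_of_lt (Cardinal.cantor _)

private theorem CntQ_Iic (η : L) : Cardinal.mk (Iic η) ≤ kap := by
  have h1 : Cardinal.mk (Iio η) ≤ kap := by
    have h2 : Cardinal.mk (Iio η) < Order.succ kap := by simpa using Cardinal.mk_Iio_lt η
    exact Order.lt_succ_iff.1 h2
  have h3 : Iic η ⊆ insert η (Iio η) := fun d hd => by
    rcases (mem_Iic.1 hd).lt_or_eq with h | h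
    · exact Or.inr h
    · exact Or.inl h
  refine (Cardinal.mk_le_mk_of_subset h3).trans (Cardinal.mk_insert_le.trans ?_)
  refine (add_le_add_left h1 1).trans (le_of_eq ?_)
  exact Cardinal.add_one_eq aleph0_le_kap

/-- PROOF. For a fixed height `η` the map
`f ↦ (f.lam restricted to Iic η, f.h restricted to Iic η, {x : N | x ∈ f.A}, fun (x : N) (d : Iic η) =>
f.D x d)` is injective on the conditions of height `η` with `A ⊆ N`: outside the values are
fixed by `lamJ`, `hJ`, `DJ` (and `x ∉ N` implies `x ∉ A`). `#(Iic η) ≤ κ` (`mk_Iio_...`, `L = κ⁺`), so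
the target has size at most `((κ⁺)^κ)^κ * (2^κ)^κ * 2^κ * ((2^κ)^κ)^κ = 2^κ`; and `#L = κ⁺ ≤ 2^κ`. -/
theorem cnt_QC {I : Type 1} (N : Set I) (hN : Cardinal.mk N ≤ kap) :
    Cardinal.mk {f : QC I | f.1.A ⊆ N} ≤ 2 ^ kap := by
  classical
  let Fb : L → Type 1 := fun η => (Iic η → K0 → L) × (Iic η → Set K0) × Set N ×
    (N → Iic η → RO UC)
  let F : {f : QC I | f.1.A ⊆ N} → Σ η : L, Fb η := fun f => ⟨f.1.1.eta,
    fun d => f.1.1.lam d.1, fun d => f.1.1.h d.1, {x : N | x.1 ∈ f.1.1.A},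
    fun x d => f.1.1.D x.1 d.1⟩
  have hF : Function.Injective F := by
    rintro ⟨⟨⟨η, lam, h, A, D⟩, hf⟩, hA⟩ ⟨⟨⟨η', lam', h', A', D'⟩, hf'⟩, hA'⟩ hff
    obtain ⟨h1, h2⟩ := Sigma.mk.inj_iff.1 hff
    have h1' : η = η' := h1
    subst h1'
    have h3 := eq_of_heq h2
    have h4 : (fun d : Iic η => lam d.1) = fun d : Iic η => lam' d.1 := congrArg (·.1) h3
    have h5 : (fun d : Iic η => h d.1) = fun d : Iic η => h' d.1 := congrArg (·.2.1) h3
    have h6 : {x : N | x.1 ∈ A} = {x : N | x.1 ∈ A'} := congrArg (·.2.2.1) h3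
    have h7 : (fun (x : N) (d : Iic η) => D x.1 d.1) = fun (x : N) (d : Iic η) => D' x.1 d.1 :=
      congrArg (·.2.2.2) h3
    have hAN : A ⊆ N := hA
    have hAN' : A' ⊆ N := hA'
    have e1 : lam = lam' := by
      funext d
      by_cases hd : d ≤ η
      · exact congrFun h4 ⟨d, hd⟩
      · exact (hf.lamJ d (Or.inl (not_le.1 hd))).trans (hf'.lamJ d (Or.inl (not_le.1 hd))).symm
    have e2 : h = h' := by
      funext d
      by_cases hd : d ≤ η
      · exact congrFun h5 ⟨d, hd⟩
      · exact (hf.hJ d (not_le.1 hd)).trans (hf'.hJ d (not_le.1 hd)).symm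
    have e3 : A = A' := by
      ext x
      constructor
      · intro hx
        have h8 : (⟨x, hAN hx⟩ : N) ∈ {x : N | x.1 ∈ A} := hx
        rw [h6] at h8
        exact h8
      · intro hx
        have h8 : (⟨x, hAN' hx⟩ : N) ∈ {x : N | x.1 ∈ A'} := hx
        rw [← h6] at h8
        exact h8
    subst e3
    have e4 : D = D' := by
      funext x d
      by_cases hx : x ∈ A
      · by_cases hd : d ≤ η
        · exact congrFun (congrFun h7 ⟨x, hAN hx⟩) ⟨d, hd⟩
        · exact (hf.DJ x d (Or.inr (not_le.1 hd))).trans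
            (hf'.DJ x d (Or.inr (not_le.1 hd))).symm
      · exact (hf.DJ x d (Or.inl hx)).trans (hf'.DJ x d (Or.inl hx)).symm
    subst e1
    subst e2
    subst e4
    rfl
  refine (Cardinal.mk_le_of_injective hF).trans ?_
  rw [Cardinal.mk_sigma]
  have hfb : ∀ η, Cardinal.mk (Fb η) ≤ 2 ^ kap := fun η =>
    CntQ_prod (CntQ_pow (CntQ_Iic η) (CntQ_pow le_rfl CntQ_L))
      (CntQ_prod (CntQ_pow (CntQ_Iic η) (Cardinal.mk_set.le))
      (CntQ_prod (by
          rw [Cardinal.mk_set]
          exact Cardinal.power_le_power_left two_ne_zero hN)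
        (CntQ_pow hN (CntQ_pow (CntQ_Iic η) mk_RO_UC))))
  refine (Cardinal.sum_le_sum _ _ hfb).trans ?_
  rw [Cardinal.sum_const']
  refine (mul_le_mul' CntQ_L le_rfl).trans (le_of_eq (Cardinal.mul_eq_self ?_))
  exact aleph0_le_kap.trans (Cardinal.cantor _).le

end Pool.Agent.CG3
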