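import Pool.Agent.Lib.MP_99c1f3_lc.CG.Q.Defs
import Pool.Agent.Lib.MP_99c1f3_lc.CG.H.Rho
import Pool.Agent.Lib.MP_99c1f3_lc.CG.T.Sz

/-!
# CG3, block Q2: permutations of the coordinates act on the second step
-/

set_option autoImplicit false

namespace Pool.Agent.CG3

open Pool.Agent.Lib.SymModel Set

variable {I : Type 1}

/-- The image of a raw condition of the second step under a permutation. -/
def QR.perm (σ : Equiv.Perm I) (f : QR I) : QR I where
  eta := f.eta
  lam := f.lam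
  h := f.h
  A := σ '' f.A
  D x := f.D (σ.symm x)

private theorem PermQ_symm_mem {σ : Equiv.Perm I} {A : Set I} {x : I} (h : x ∈ σ '' A) :
    σ.symm x ∈ A := by
  obtain ⟨y, hy, rfl⟩ := h
  rw [σ.symm_apply_apply]
  exact hy

private theorem PermQ_mem_of_symm {σ : Equiv.Perm I} {A : Set I} {x : I} (h : σ.symm x ∈ A) :
    x ∈ σ '' A :=
  ⟨_, h, σ.apply_symm_apply x⟩

/-- PROOF. `szA`: compose the injection with `σ.symm`. The other fields: for `x ∈ σ '' A` use the field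
for `σ.symm x ∈ A`. -/
theorem IsQ.perm (σ : Equiv.Perm I) {f : QR I} (hf : IsQ f) : IsQ (f.perm σ) where
  szA := hf.szA.image _
  lamOk := hf.lamOk
  lamJ := hf.lamJ
  hJ := hf.hJ
  DJ x d h := hf.DJ (σ.symm x) d (h.imp (fun h1 h2 => h1 (PermQ_mem_of_symm h2)) id)
  clo x hx := hf.clo (σ.symm x) (PermQ_symm_mem hx)
  lad x hx := hf.lad (σ.symm x) (PermQ_symm_mem hx)

/-- The image of a condition of the second step under a permutation. -/
def QC.perm (σ : Equiv.Perm I) (f : QC I) : QC I := ⟨f.1.perm σ, f.2.perm σ⟩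

theorem QC.perm_A (σ : Equiv.Perm I) (f : QC I) : (f.perm σ).1.A = σ '' f.1.A := rfl

private theorem PermQ_ext {f g : QR I} (h1 : f.eta = g.eta) (h2 : f.lam = g.lam) (h3 : f.h = g.h)
    (h4 : f.A = g.A) (h5 : f.D = g.D) : f = g := by
  cases f
  cases g
  cases h1
  cases h2
  cases h3
  cases h4
  cases h5
  rfl

theorem QC.perm_perm (σ τ : Equiv.Perm I) (f : QC I) : (f.perm σ).perm τ = f.perm (τ * σ) := by
  refine Subtype.ext (PermQ_ext rfl rfl rfl ?_ rfl)
  exact Set.image_image _ _ _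

/-- PROOF. `σ '' A = A`; for `x ∈ A` `σ.symm x = x`; for `x ∉ A` also `σ.symm x ∉ A` (if
`σ.symm x = y ∈ A` then `x = σ y = y ∈ A`), so both names are `⊥` by `DJ`. -/
theorem QC.perm_of_fix (σ : Equiv.Perm I) (f : QC I) (h : ∀ x ∈ f.1.A, σ x = x) :
    f.perm σ = f := by
  refine Subtype.ext (PermQ_ext rfl rfl rfl ?_ ?_)
  · change σ '' f.1.A = f.1.A
    rw [Set.image_congr h]
    exact Set.image_id' _
  · funext x
    change f.1.D (σ.symm x) = f.1.D x
    by_cases hx : x ∈ f.1.A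
    · have h1 : σ.symm x = x := by
        rw [Equiv.symm_apply_eq]
        exact (h x hx).symm
      rw [h1]
    · have h1 : σ.symm x ∉ f.1.A := by
        intro h2
        have h3 := h _ h2
        rw [σ.apply_symm_apply] at h3
        exact hx (h3 ▸ h2)
      funext d
      rw [f.2.DJ _ d (Or.inl h1), f.2.DJ _ d (Or.inl hx)]

/-- PROOF. `g`: `eta`, `lam`, `h` of `f`; `A = f.A ∪ σ '' f.A`; `D x = f.D x` if `x ∈ f.A`,
`f.D (σ.symm x)` otherwise. For `x ∈ f.A ∩ σ '' f.A`: `σ x = x` by the hypothesis, so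
`σ.symm x = x` and the two names agree. `IsQ g`: `szA`: a union of two sets of size `≤ κ`
(an injection `Bool × K0 → K0` or `Cardinal` arithmetic); the other fields from those of `f` and
`f.perm σ`. -/
theorem QC.am (σ : Equiv.Perm I) (f : QC I) (h : ∀ x ∈ f.1.A, x ∈ σ '' f.1.A → σ x = x) :
    ∃ g : QC I, g ≤ f ∧ g ≤ f.perm σ := by
  classical
  have hp := f.2.perm σ
  obtain ⟨E, hE⟩ : ∃ E : I → L → RO UC, E = fun x => if x ∈ f.1.A then f.1.D x else
      f.1.D (σ.symm x) := ⟨_, rfl⟩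
  have e1 : ∀ x ∈ f.1.A, E x = f.1.D x := by
    intro x hx
    rw [hE]
    exact if_pos hx
  have e2 : ∀ x, x ∉ f.1.A → E x = (f.1.perm σ).D x := by
    intro x hx
    rw [hE]
    exact if_neg hx
  have e3 : ∀ x ∈ σ '' f.1.A, E x = (f.1.perm σ).D x := by
    intro x hx
    by_cases hx1 : x ∈ f.1.A
    · rw [e1 x hx1]
      have h1 : σ.symm x = x := by
        rw [Equiv.symm_apply_eq]
        exact (h x hx1 hx).symm
      change f.1.D x = f.1.D (σ.symm x)
      rw [h1]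
    · exact e2 x hx1
  have hg : IsQ (⟨f.1.eta, f.1.lam, f.1.h, f.1.A ∪ σ '' f.1.A, E⟩ : QR I) := by
    refine ⟨f.2.szA.union hp.szA, f.2.lamOk, f.2.lamJ, f.2.hJ, ?_, ?_, ?_⟩
    · intro x d hxd
      change E x d = ⊥
      rcases hxd with hx | hd
      · have hx1 : x ∉ f.1.A := fun h1 => hx (Or.inl h1)
        rw [e2 x hx1]
        exact hp.DJ x d (Or.inl fun h1 => hx (Or.inr h1))
      · by_cases hx1 : x ∈ f.1.A
        · rw [e1 x hx1]
          exact f.2.DJ x d (Or.inr hd)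
        · rw [e2 x hx1]
          exact hp.DJ x d (Or.inr hd)
    · intro x hx
      change ∀ γ ≤ f.1.eta, (∃ α, α < γ) → ∀ u : UC,
        (∀ α < γ, ∀ v ≤ u, ∃ w ≤ v, ∃ β, α < β ∧ β < γ ∧ w ∈ E x β) → u ∈ E x γ
      rcases hx with hx | hx
      · rw [e1 x hx]
        exact f.2.clo x hx
      · rw [e3 x hx]
        exact hp.clo x hx
    · intro x hx
      change ∀ d ≤ f.1.eta, (∃ l, IsLad d l) → ∀ u : UC, ∃ v ≤ u, ∃ β, ∀ ν, β < ν →
        ∀ w ≤ v, w ∈ E x (f.1.lam d ν) → In w.1 ν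
      rcases hx with hx | hx
      · rw [e1 x hx]
        exact f.2.lad x hx
      · rw [e3 x hx]
        exact hp.lad x hx
  refine ⟨⟨_, hg⟩, ⟨⟨le_rfl, fun _ _ => rfl, fun _ _ => rfl, subset_union_left⟩, ?_⟩,
    ⟨⟨le_rfl, fun _ _ => rfl, fun _ _ => rfl, subset_union_right⟩, ?_⟩⟩
  · intro x hx ν _
    change E x ν = f.1.D x ν
    rw [e1 x hx]
  · intro x hx ν _
    change E x ν = (f.1.perm σ).D x ν
    rw [e3 x hx]

/-- PROOF. `SzK A` gives `#A ≤ #K0 = κ`. -/
theorem QC.mk_A (f : QC I) : Cardinal.mk f.1.A ≤ kap := by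
  obtain ⟨F, hF⟩ := f.2.szA
  exact Cardinal.mk_le_of_injective (f := fun x : f.1.A => F x.1) fun x y hxy =>
    Subtype.ext (hF x.2 y.2 hxy)

end Pool.Agent.CG3
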