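import Pool.Agent.Lib.MP_99c1f3_lc.CG.T.Red
import Pool.Agent.Lib.MP_99c1f3_lc.CG.Q2.PermQ

/-!
# CG3, block Q2: permutations of the coordinates act on `P₀`
-/

set_option autoImplicit false

namespace Pool.Agent.CG3

open Pool.Agent.Lib.SymModel Set

variable {I : Type 1}

/-- The action on conditions. -/
def PC.perm (σ : Equiv.Perm I) (p : PC I) : PC I := ⟨p.t.perm σ, p.f.perm σ⟩

/-- The support of a condition. -/
def PC.supp (p : PC I) : Set I := p.t.s.X ∪ p.f.1.A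

/-- PROOF. `image_union`. -/
theorem PC.supp_perm (σ : Equiv.Perm I) (p : PC I) : (p.perm σ).supp = σ '' p.supp :=
  (Set.image_union σ p.t.s.X p.f.1.A).symm

/-- PROOF. `perm_perm` of T/Perm (`σ.trans τ = τ * σ`) and `QC.perm_perm`. -/
theorem PC.perm_perm (σ τ : Equiv.Perm I) (p : PC I) : (p.perm σ).perm τ = p.perm (τ * σ) := by
  have h1 : (p.t.perm σ).perm τ = p.t.perm (τ * σ) := Pool.Agent.CG3.perm_perm p.t σ τ
  have h2 : (p.f.perm σ).perm τ = p.f.perm (τ * σ) := QC.perm_perm σ τ p.f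
  change (⟨(p.t.perm σ).perm τ, (p.f.perm σ).perm τ⟩ : PC I) = ⟨p.t.perm (τ * σ), p.f.perm (τ * σ)⟩
  rw [h1, h2]

/-- PROOF. `perm_id` and `QC.perm_of_fix`. -/
theorem PC.perm_of_fix (σ : Equiv.Perm I) (p : PC I) (h : ∀ x ∈ p.supp, σ x = x) :
    p.perm σ = p := by
  have h1 : p.t.perm σ = p.t := perm_id fun x hx => h x (Or.inl hx)
  have h2 : p.f.perm σ = p.f := QC.perm_of_fix σ p.f fun x hx => h x (Or.inr hx)
  change (⟨p.t.perm σ, p.f.perm σ⟩ : PC I) = p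
  rw [h1, h2]

/-- PROOF. `compat_perm` gives `t''`, `QC.am` gives `g`; `r = ⟨t'', g⟩`, `WLe.of_le`. -/
theorem PC.am (σ : Equiv.Perm I) (p : PC I)
    (h : ∀ x ∈ p.supp, x ∈ (p.perm σ).supp → σ x = x) : ∃ r, r ≤ p ∧ r ≤ p.perm σ := by
  obtain ⟨t, ht1, ht2⟩ := compat_perm p.t σ fun x hx hx' => h x (Or.inl hx) (Or.inl hx')
  obtain ⟨g, hg1, hg2⟩ := QC.am σ p.f fun x hx hx' => h x (Or.inr hx) (Or.inr hx')
  exact ⟨⟨t, g⟩, ⟨ht1, WLe.of_le hg1⟩, ⟨ht2, WLe.of_le hg2⟩⟩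

/-- PROOF. `X` is small, so of size `≤ κ` (`SzK.of_small`), `QC.mk_A`, `κ + κ = κ`. -/
theorem PC.mk_supp (p : PC I) : Cardinal.mk p.supp ≤ kap := by
  obtain ⟨F, hF⟩ := (SzK.of_small p.t.hs.smX).union p.f.2.szA
  exact Cardinal.mk_le_of_injective (f := fun x : p.supp => F x.1) fun x y hxy =>
    Subtype.ext (hF x.2 y.2 hxy)

end Pool.Agent.CG3
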