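import Pool.Agent.Lib.MP_99c1f3_lc.CG.T.Cnt
import Pool.Agent.Lib.MP_99c1f3_lc.CG.Q2.PermP
import Pool.Agent.Lib.MP_99c1f3_lc.CG.Q2.Cc
import Pool.Agent.Lib.MP_99c1f3_lc.CG.Q2.CntQ

/-!
# CG3, block Q2: size and chain condition of `P₀`
-/

set_option autoImplicit false

namespace Pool.Agent.CG3

open Pool.Agent.Lib.SymModel Set

private theorem Fin_szK {α : Type 1} {N : Set α} (h : Cardinal.mk N ≤ kap) : SzK N := by
  classical
  obtain ⟨g⟩ := (Cardinal.le_def _ _).1 h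
  refine ⟨fun x => if h : x ∈ N then g ⟨x, h⟩ else 0, fun x hx y hy hxy => ?_⟩
  simp only [hx, hy, dif_pos] at hxy
  exact congrArg Subtype.val (g.injective hxy)

private theorem Fin_mk_le {α : Type 1} {N : Set α} (h : SzK N) : Cardinal.mk N ≤ kap := by
  obtain ⟨f, hf⟩ := h
  exact Cardinal.mk_le_of_injective (f := fun x : N => f x.1)
    fun x y hxy => Subtype.ext (hf x.2 y.2 hxy)

private theorem Fin_aleph0 : Cardinal.aleph0 ≤ (2 : Cardinal.{1}) ^ kap :=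
  aleph0_le_kap.trans (Cardinal.cantor _).le

/-- PROOF. `p ↦ (p.t, p.f)` is injective into
`{t | t.s.X ⊆ N} × {f | f.1.A ⊆ N}`; the first has size `≤ κ` (`szK_T`; `#N ≤ κ` gives `SzK N`), the
second `≤ 2^κ` (`cnt_QC`); `κ * 2^κ = 2^κ`. -/
theorem cnt_PC {I : Type 1} (N : Set I) (hN : Cardinal.mk N ≤ kap) :
    Cardinal.mk {p : PC I | p.supp ⊆ N} ≤ 2 ^ kap := by
  have h1 : Cardinal.mk {t : TC I | t.s.X ⊆ N} ≤ 2 ^ kap :=
    (Fin_mk_le (szK_T (Fin_szK hN))).trans (Cardinal.cantor _).le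
  let F : {p : PC I | p.supp ⊆ N} → {t : TC I | t.s.X ⊆ N} × {f : QC I | f.1.A ⊆ N} := fun p =>
    (⟨p.1.t, fun x hx => p.2 (Or.inl hx)⟩, ⟨p.1.f, fun x hx => p.2 (Or.inr hx)⟩)
  have hF : Function.Injective F := by
    rintro ⟨⟨t, f⟩, hp⟩ ⟨⟨t', f'⟩, hq⟩ h
    simp only [F, Prod.mk.injEq, Subtype.mk.injEq] at h
    obtain ⟨rfl, rfl⟩ := h
    rfl
  refine (Cardinal.mk_le_of_injective hF).trans ?_
  rw [Cardinal.mk_prod, Cardinal.lift_id, Cardinal.lift_id]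
  calc _ ≤ (2 : Cardinal.{1}) ^ kap * 2 ^ kap := mul_le_mul' h1 (cnt_QC N hN)
    _ = 2 ^ kap := Cardinal.mul_eq_self Fin_aleph0

/-- PROOF. `PC Ix = ⋃ N, {p | p.supp ⊆ N}` over the `N : Set Ix` with `#N ≤ κ` (`N = p.supp`); there
are at most `#(Set Ix) = 2 ^ rho 0` such `N`, and `2^κ ≤ 2 ^ rho 0`. -/
theorem card_PC : Cardinal.mk (PC Ix) ≤ 2 ^ rho 0 := by
  let F : PC Ix → Σ N : {N : Set Ix // Cardinal.mk N ≤ kap}, {p : PC Ix | p.supp ⊆ N.1} :=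
    fun p => ⟨⟨p.supp, PC.mk_supp p⟩, ⟨p, fun _ hx => hx⟩⟩
  have hF : Function.Injective F := fun p q h =>
    congrArg (fun z : Σ N : {N : Set Ix // Cardinal.mk N ≤ kap}, {p : PC Ix | p.supp ⊆ N.1} =>
      z.2.1) h
  have h1 : (2 : Cardinal.{1}) ^ kap ≤ 2 ^ rho 0 :=
    Cardinal.power_le_power_left two_ne_zero (kap_lt_rho 0).le
  refine (Cardinal.mk_le_of_injective hF).trans ?_
  rw [Cardinal.mk_sigma]
  refine (Cardinal.sum_le_sum _ (fun _ => (2 : Cardinal.{1}) ^ rho 0)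
    fun N : {N : Set Ix // Cardinal.mk N ≤ kap} => (cnt_PC N.1 N.2).trans h1).trans ?_
  rw [Cardinal.sum_const']
  calc _ ≤ (2 : Cardinal.{1}) ^ rho 0 * 2 ^ rho 0 := by
        refine mul_le_mul' ((Cardinal.mk_subtype_le _).trans ?_) le_rfl
        rw [Cardinal.mk_set, mk_R]
    _ = 2 ^ rho 0 := Cardinal.mul_eq_self (Fin_aleph0.trans h1)

/-- PROOF. `cc_of_perm` with `I = Ix` (`#Ix = rho 0 > κ`), `supp = PC.supp`, `act = PC.perm`,
`PC.mk_supp`, `PC.supp_perm`, `PC.perm_perm`, `PC.perm_of_fix`, `PC.am`, `cnt_PC`. -/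
theorem cc_PC (p : R 0 → PC Ix) : ∃ a b, a ≠ b ∧ ∃ r, r ≤ p a ∧ r ≤ p b := by
  refine cc_of_perm PC.supp PC.perm ?_ PC.mk_supp PC.supp_perm PC.perm_perm PC.perm_of_fix PC.am
    cnt_PC p
  rw [mk_R]
  exact kap_lt_rho 0

end Pool.Agent.CG3
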