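import Pool.Agent.Lib.MP_99c1f3_lc.CG.H.Rho

/-!
# CG3, block Q2: a closure argument
-/

set_option autoImplicit false

namespace Pool.Agent.CG3

open Set

private theorem Clos_aleph0_le : Cardinal.aleph0 ≤ (2 : Cardinal.{1}) ^ kap :=
  aleph0_le_kap.trans (Cardinal.cantor kap).le

private theorem Clos_mul : (2 : Cardinal.{1}) ^ kap * 2 ^ kap = 2 ^ kap :=
  Cardinal.mul_eq_self Clos_aleph0_le

private theorem Clos_mk_L : Cardinal.mk L ≤ 2 ^ kap := by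
  rw [Cardinal.mk_ord_toType]
  exact Order.succ_le_of_lt (Cardinal.cantor _)

private theorem Clos_iUnion {K T : Type 1} (f : K → Set T) (hK : Cardinal.mk K ≤ 2 ^ kap)
    (hf : ∀ k, Cardinal.mk (f k) ≤ 2 ^ kap) : Cardinal.mk (⋃ k, f k : Set T) ≤ 2 ^ kap := by
  refine (Cardinal.mk_iUnion_le_sum_mk).trans ?_
  refine (Cardinal.sum_le_sum _ (fun _ => 2 ^ kap) hf).trans ?_
  rw [Cardinal.sum_const']
  exact (mul_le_mul_left hK _).trans Clos_mul.le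

/-- The number of subsets of size `≤ κ` of a set of size `≤ 2^κ`.

PROOF. Every nonempty such subset is the range of a function `K0 → W`; `2^κ = (2^κ)^κ`
(`Cardinal.mk_bounded_set_le` or a direct surjection; `Cardinal.power_mul`, `mul_eq_self`). -/
theorem mk_small_subsets {I : Type 1} (W : Set I) (hW : Cardinal.mk W ≤ 2 ^ kap) :
    Cardinal.mk {r : Set I | r ⊆ W ∧ Cardinal.mk r ≤ kap} ≤ 2 ^ kap := by
  refine (Cardinal.mk_bounded_subset_le W kap).trans ?_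
  refine (Cardinal.power_le_power_right (max_le hW Clos_aleph0_le)).trans ?_
  rw [← Cardinal.power_mul, Cardinal.mul_eq_self aleph0_le_kap]

/-- One step of the closure. -/
private def Clos_step {I J : Type 1} (B : J → Set I) (Γ : Set I → Set J) (S : Set J) : Set J :=
  S ∪ ⋃ r : {r : Set I | r ⊆ (⋃ a : S, B a) ∧ Cardinal.mk r ≤ kap}, Γ r

private theorem Clos_step_mk {I J : Type 1} {B : J → Set I}
    (hB : ∀ a, Cardinal.mk (B a) ≤ kap) {Γ : Set I → Set J}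
    (hΓ : ∀ r, Cardinal.mk (Γ r) ≤ 2 ^ kap) {S : Set J} (hS : Cardinal.mk S ≤ 2 ^ kap) :
    Cardinal.mk (Clos_step B Γ S) ≤ 2 ^ kap := by
  have hW : Cardinal.mk (⋃ a : S, B a : Set I) ≤ 2 ^ kap :=
    Clos_iUnion _ hS fun a => (hB a).trans (Cardinal.cantor kap).le
  refine (Cardinal.mk_union_le _ _).trans ?_
  exact Cardinal.add_le_of_le Clos_aleph0_le hS
    (Clos_iUnion _ (mk_small_subsets _ hW) fun r => hΓ r)

/-- The transfinite sequence of sets. -/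
private noncomputable def Clos_seq {I J : Type 1} (B : J → Set I) (Γ : Set I → Set J) :
    L → Set J :=
  (wellFounded_lt (α := L)).fix fun i ih => ⋃ j : Set.Iio i, Clos_step B Γ (ih j.1 j.2)

private theorem Clos_seq_eq {I J : Type 1} (B : J → Set I) (Γ : Set I → Set J) (i : L) :
    Clos_seq B Γ i = ⋃ j : Set.Iio i, Clos_step B Γ (Clos_seq B Γ j.1) :=
  WellFounded.fix_eq _ _ _

private theorem Clos_seq_mk {I J : Type 1} {B : J → Set I}
    (hB : ∀ a, Cardinal.mk (B a) ≤ kap) {Γ : Set I → Set J}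
    (hΓ : ∀ r, Cardinal.mk (Γ r) ≤ 2 ^ kap) (i : L) :
    Cardinal.mk (Clos_seq B Γ i) ≤ 2 ^ kap := by
  induction i using WellFoundedLT.induction with
  | ind i ih =>
    rw [Clos_seq_eq]
    exact Clos_iUnion _ ((Cardinal.mk_set_le _).trans Clos_mk_L)
      fun j => Clos_step_mk hB hΓ (ih j.1 j.2)

private theorem Clos_step_sub {I J : Type 1} (B : J → Set I) (Γ : Set I → Set J) {i i' : L}
    (h : i < i') : Clos_step B Γ (Clos_seq B Γ i) ⊆ Clos_seq B Γ i' := by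
  rw [Clos_seq_eq B Γ i']
  exact Set.subset_iUnion (fun j : Set.Iio i' => Clos_step B Γ (Clos_seq B Γ j.1)) ⟨i, h⟩

/-- Closure under an operation on sets of size `κ`.

PROOF. Well-founded recursion on `i : L`:
`M i = ⋃ j < i, (M j ∪ ⋃ {r | #r ≤ κ, ∀ x ∈ r, ∃ a ∈ M j, x ∈ B a}, Γ r)`, `M = ⋃ i, M i`.
`#(M i) ≤ 2^κ` by induction: `#(Iio i) ≤ κ`; `W j = ⋃ a ∈ M j, B a` has size `≤ 2^κ * κ`, so
there are at most `2^κ` sets `r` (`mk_small_subsets`), each with `#(Γ r) ≤ 2^κ`, and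
`#M ≤ #L * 2^κ ≤ 2^κ`
(`#L = succ κ ≤ 2^κ`). `M i ⊆ M i'` for `i ≤ i'`. If `#r ≤ κ` and every `x ∈ r` is in some `B a`,
`a ∈ M (i x)`, then the set of all `i x` is bounded in `L` (`bdd_L`), say by `i₀`, so all these `a`
are in `M i₀` and `Γ r ⊆ M i₁` for any `i₁ > i₀` (`L` has no maximum: `bdd_L {i₀}`). -/
theorem exists_closedL {I J : Type 1} (B : J → Set I) (hB : ∀ a, Cardinal.mk (B a) ≤ kap)
    (Γ : Set I → Set J) (hΓ : ∀ r, Cardinal.mk (Γ r) ≤ 2 ^ kap) :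
    ∃ M : Set J, Cardinal.mk M ≤ 2 ^ kap ∧
      ∀ r : Set I, Cardinal.mk r ≤ kap → (∀ x ∈ r, ∃ a ∈ M, x ∈ B a) → Γ r ⊆ M := by
  refine ⟨⋃ i, Clos_seq B Γ i, Clos_iUnion _ Clos_mk_L (Clos_seq_mk hB hΓ), ?_⟩
  intro r hr hx
  have h1 : ∀ x : r, ∃ (i : L) (a : J), a ∈ Clos_seq B Γ i ∧ x.1 ∈ B a := by
    intro x
    obtain ⟨a, ha, hxa⟩ := hx x.1 x.2
    obtain ⟨i, hi⟩ := Set.mem_iUnion.1 ha
    exact ⟨i, a, hi, hxa⟩
  choose f a ha hxa using h1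
  obtain ⟨b, hb⟩ := bdd_L (Set.range f) (Cardinal.mk_range_le.trans hr)
  obtain ⟨b', hb'⟩ := bdd_L {b} (by
    rw [Cardinal.mk_singleton]
    exact Cardinal.one_le_aleph0.trans aleph0_le_kap)
  have h2 : r ⊆ ⋃ a : Clos_seq B Γ b, B a := by
    intro x hx
    have h3 : a ⟨x, hx⟩ ∈ Clos_seq B Γ b :=
      Clos_step_sub B Γ (hb _ (Set.mem_range_self ⟨x, hx⟩)) (Or.inl (ha ⟨x, hx⟩))
    exact Set.mem_iUnion.2 ⟨⟨_, h3⟩, hxa ⟨x, hx⟩⟩
  intro y hy
  have h4 : y ∈ Clos_step B Γ (Clos_seq B Γ b) :=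
    Or.inr (Set.mem_iUnion.2 ⟨⟨r, h2, hr⟩, hy⟩)
  exact Set.mem_iUnion.2 ⟨b', Clos_step_sub B Γ (hb' b rfl) h4⟩

end Pool.Agent.CG3
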